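import Pool.Agent.V1121.PG.Uniform

/-!
# Power saving for sets of polynomial growth

The hypothesis of bounded doubling is replaced by `|n P| ≤ n ^ C |P|` for one `n` between `2` and a small
power of `p`; the doubling constant of `P` may be as large as a power of `p`.
-/

set_option autoImplicit false

namespace Pool.Agent.Results.MP_cb27ba_nt.PolynomialGrowth

open scoped Pointwise

/-- the `n`-fold sumset `P + ... + P` -/
noncomputable def fold {p : ℕ} (n : ℕ) (P : Finset (ZMod p)) : Finset (ZMod p) := by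
  classical exact (Fintype.piFinset fun _ : Fin n => P).image fun f => ∑ i, f i

/-- `χ` has the power saving `τ` for all sets `P` with more than `p ^ δ` elements and `|n P| ≤ n ^ C |P|` for some
`n` between `2` and `p ^ τ`, and for all sets nearly invariant under such a set. -/
def Saving (C : ℕ) (δ τ : ℝ) (p : ℕ) (χ : DirichletCharacter ℂ p) : Prop :=
  ∀ (n : ℕ) (P : Finset (ZMod p)), 2 ≤ n → (n : ℝ) ≤ (p : ℝ) ^ τ → (p : ℝ) ^ δ < P.card →
    ((fold n P).card : ℝ) ≤ (n : ℝ) ^ C * P.card →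
    ‖∑ a ∈ P, ∑ b ∈ P, χ (a - b)‖ < (P.card : ℝ) ^ (2 - τ) ∧
    ∀ A : Finset (ZMod p), A.Nonempty → ((A + P).card : ℝ) ≤ (p : ℝ) ^ τ * A.card →
      ‖∑ a ∈ A, ∑ b ∈ A, χ (a - b)‖ < (A.card : ℝ) ^ (2 - τ)

theorem fold_eq {p : ℕ} (n : ℕ) (P : Finset (ZMod p)) :
    fold n P = ((Fintype.piFinset fun _ : Fin n => P).image fun f => ∑ i, f i) := by
  unfold fold
  congr!

theorem add_le_fold {p : ℕ} {n : ℕ} (hn : 2 ≤ n) {P : Finset (ZMod p)} (hP : P.Nonempty) :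
    (P + P).card ≤ (fold n P).card := by
  classical
  have h1 := Pool.Agent.TH513.IS.sm_card_mono hP hn
  have h2 : P + P ⊆ Pool.Agent.TH513.IS.sm P 2 := by
    have h3 := Pool.Agent.TH513.IS.sm_add_subset (A := P) (m := 1) (n := 1)
    rwa [Pool.Agent.TH513.IS.sm_one] at h3
  have h4 : Pool.Agent.TH513.IS.sm P n = fold n P := by
    rw [fold_eq]
    rfl
  rw [← h4]
  exact (Finset.card_le_card h2).trans h1

/-- passing from the savings for nearly invariant sets to `Saving` -/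
theorem saving_of {C : ℕ} {δ τ₁ τ : ℝ} (hδ : 0 < δ) (hτ : 0 < τ) (hτ₁ : τ * (C + 1) ≤ τ₁) {p : ℕ}
    (hp : p.Prime) (χ : DirichletCharacter ℂ p)
    (h : ∀ (n : ℕ) (P A : Finset (ZMod p)), 2 ≤ n → (n : ℝ) ≤ (p : ℝ) ^ τ₁ → (p : ℝ) ^ δ < P.card →
      (((Fintype.piFinset fun _ : Fin n => P).image fun f => ∑ i, f i).card : ℝ) ≤
        (n : ℝ) ^ C * (P.card : ℝ) → A.Nonempty → ((A + P).card : ℝ) ≤ (p : ℝ) ^ τ₁ * A.card →
      ‖∑ a ∈ A, ∑ b ∈ A, χ (a - b)‖ < (A.card : ℝ) ^ (2 - τ₁)) : Saving C δ τ p χ := by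
  have : Fact p.Prime := ⟨hp⟩
  intro n P hn hnp hP hL
  have hp1 : (1 : ℝ) ≤ p := by exact_mod_cast hp.one_lt.le
  have hp0 : (0 : ℝ) < p := by linarith
  have hC0 : (0 : ℝ) ≤ C := Nat.cast_nonneg _
  have hττ : τ ≤ τ₁ := by nlinarith
  have hP0 : (0 : ℝ) < P.card := lt_of_le_of_lt (by positivity) hP
  have hPne : P.Nonempty := by
    rw [← Finset.card_pos]
    exact_mod_cast hP0
  have hmono : (p : ℝ) ^ τ ≤ (p : ℝ) ^ τ₁ := Real.rpow_le_rpow_of_exponent_le hp1 hττ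
  have hexp : ∀ A : Finset (ZMod p), A.Nonempty → (A.card : ℝ) ^ (2 - τ₁) ≤ (A.card : ℝ) ^ (2 - τ) := by
    intro A hA
    apply Real.rpow_le_rpow_of_exponent_le _ (by linarith)
    exact_mod_cast hA.card_pos
  have hL' := hL
  rw [fold_eq] at hL'
  refine ⟨?_, ?_⟩
  · refine (h n P P hn (hnp.trans hmono) hP hL' hPne ?_).trans_le (hexp P hPne)
    have h1 : ((P + P).card : ℝ) ≤ (fold n P).card := by exact_mod_cast add_le_fold hn hPne
    refine h1.trans (hL.trans (mul_le_mul_of_nonneg_right ?_ (Nat.cast_nonneg _)))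
    calc (n : ℝ) ^ C ≤ ((p : ℝ) ^ τ) ^ C := pow_le_pow_left₀ (Nat.cast_nonneg _) hnp _
      _ = (p : ℝ) ^ (τ * C) := by rw [← Real.rpow_natCast, ← Real.rpow_mul hp0.le]
      _ ≤ (p : ℝ) ^ τ₁ := Real.rpow_le_rpow_of_exponent_le hp1 (by nlinarith)
  · intro A hA hAP
    exact (h n P A hn (hnp.trans hmono) hP hL' hA
      (hAP.trans (mul_le_mul_of_nonneg_right hmono (Nat.cast_nonneg _)))).trans_le (hexp A hA)

/-- **Power saving for sets of polynomial growth.** (1) exponents above `1/4`: every prime, every nonprincipal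
character; (2) exponents up to `1/4`: every large prime, all but few characters; (3) an explicit bound in terms
of the size of one iterated sumset. -/
theorem result :
    (∀ (δ : ℝ) (C : ℕ), 1 / 4 < δ → ∃ τ : ℝ, 0 < τ ∧ ∀ p : ℕ, p.Prime →
      ∀ χ : DirichletCharacter ℂ p, χ ≠ 1 → Saving C δ τ p χ) ∧
    (∀ (δ ε : ℝ) (C : ℕ), 0 < δ → δ ≤ 1 / 4 → 0 < ε → ∃ τ : ℝ, 0 < τ ∧ ∃ p₀ : ℕ,
      ∀ p : ℕ, p.Prime → p₀ ≤ p →
      ({χ : DirichletCharacter ℂ p | ¬ Saving C δ τ p χ}.ncard : ℝ) ≤ (p : ℝ) ^ (1 - 2 * δ + ε)) ∧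
    (∀ ε : ℝ, 0 < ε → ε ≤ 1 / 4 → ∃ c : ℝ, 0 < c ∧ ∀ p : ℕ, p.Prime →
      ∀ χ : DirichletCharacter ℂ p, χ ≠ 1 → ∀ k n : ℕ, 1 ≤ k → 2 ≤ n →
      ∀ (L x : ℝ) (P : Finset (ZMod p)), (p : ℝ) ^ (1 / 4 + ε) < P.card →
        ((fold n P).card : ℝ) ≤ L * P.card → Real.log (2 * L) ≤ (n : ℝ) ^ k →
        x = 1 + Real.log (2 * L) / Real.log n →
        k * Real.log (2 * L) * x ^ 4 ≤ c * Real.log p →
        ‖∑ a ∈ P, ∑ b ∈ P, χ (a - b)‖ ≤ Real.exp (-(c * Real.log p / x ^ 4)) * (P.card : ℝ) ^ 2) := by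
  refine ⟨?_, ?_, ?_⟩
  · intro δ C hδ
    obtain ⟨τ₁, hτ₁, h⟩ := V1121.PG.poly_power δ hδ C
    obtain ⟨τ, hτ⟩ : ∃ τ : ℝ, τ = τ₁ / (C + 1) := ⟨_, rfl⟩
    have hC0 : (0 : ℝ) ≤ C := Nat.cast_nonneg _
    have hτ0 : 0 < τ := by rw [hτ]; positivity
    have hττ : τ * (C + 1) = τ₁ := by rw [hτ]; field_simp
    refine ⟨τ, hτ0, ?_⟩
    intro p hp χ hχ
    have : Fact p.Prime := ⟨hp⟩
    refine saving_of (by linarith) hτ0 hττ.le hp χ ?_
    intro n P A hn hnp hP hL hA hAP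
    have h1 := h p χ hχ n hn hnp P hP hL A A hA hA hAP hAP 1 1
    simp only [Pi.one_apply, one_mul, norm_one, one_pow, Finset.sum_const, nsmul_eq_mul,
      mul_one] at h1
    refine V1121.PG.strict_of_bound hp.one_lt hτ₁ hA (h1.trans (le_of_eq ?_))
    rw [Real.sqrt_mul_self (Nat.cast_nonneg _), Real.mul_self_sqrt (Nat.cast_nonneg _)]
  · intro δ ε C hδ hδ4 hε
    obtain ⟨τ₁, hτ₁, p₀, h⟩ := V1121.PG.uniform_power δ ε C hδ hδ4 hε
    obtain ⟨τ, hτ⟩ : ∃ τ : ℝ, τ = τ₁ / (C + 1) := ⟨_, rfl⟩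
    have hC0 : (0 : ℝ) ≤ C := Nat.cast_nonneg _
    have hτ0 : 0 < τ := by rw [hτ]; positivity
    have hττ : τ * (C + 1) = τ₁ := by rw [hτ]; field_simp
    refine ⟨τ, hτ0, p₀, ?_⟩
    intro p hp hp₀
    have : Fact p.Prime := ⟨hp⟩
    refine le_trans ?_ (h p hp hp₀)
    have hsub : {χ : DirichletCharacter ℂ p | ¬ Saving C δ τ p χ} ⊆
        {χ : DirichletCharacter ℂ p | V1121.PG.Exc C δ τ₁ p χ} := by
      intro χ hχ
      by_contra hcon
      apply hχ
      refine saving_of hδ hτ0 hττ.le hp χ ?_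
      intro n P A hn hnp hP hL hA hAP
      by_contra hlt
      exact hcon ⟨n, P, A, hn, hnp, hP, hL, hA, hAP, not_lt.1 hlt⟩
    exact_mod_cast Set.ncard_le_ncard hsub (Set.toFinite _)
  · intro ε hε0 hε
    obtain ⟨c, hc, h⟩ := V1121.PG.poly_growth (ε / 5) (by linarith) (by linarith)
    refine ⟨c, hc, ?_⟩
    intro p hp χ hχ k n hk hn L x P hP hL hkn hx hcond
    have : Fact p.Prime := ⟨hp⟩
    have hP0 : (0 : ℝ) < P.card := lt_of_le_of_lt (by positivity) hP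
    have hPne : P.Nonempty := by
      rw [← Finset.card_pos]
      exact_mod_cast hP0
    have hL' := hL
    rw [fold_eq] at hL'
    have hL1 : 1 ≤ L := V1121.PF.one_le_of_card (by omega) hPne hL'
    have hnR : (2 : ℝ) ≤ n := by exact_mod_cast hn
    have hu0 : 0 ≤ Real.log (2 * L) := Real.log_nonneg (by linarith)
    have hx1 : 1 ≤ x := by
      rw [hx]
      have : 0 ≤ Real.log (2 * L) / Real.log n :=
        div_nonneg hu0 (Real.log_nonneg (by linarith))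
      linarith
    have hx40 : 0 < x ^ 4 := by positivity
    have hkR : (1 : ℝ) ≤ k := by exact_mod_cast hk
    have hPP : ((P + P).card : ℝ) ≤ Real.exp (c * Real.log p / x ^ 4) * P.card := by
      have h1 : ((P + P).card : ℝ) ≤ (fold n P).card := by exact_mod_cast add_le_fold hn hPne
      refine h1.trans (hL.trans (mul_le_mul_of_nonneg_right ?_ (Nat.cast_nonneg _)))
      calc L ≤ 2 * L := by linarith
        _ = Real.exp (Real.log (2 * L)) := (Real.exp_log (by linarith)).symm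
        _ ≤ _ := by
            apply Real.exp_le_exp.2
            rw [le_div_iff₀ hx40]
            refine le_trans ?_ hcond
            apply mul_le_mul_of_nonneg_right _ hx40.le
            nlinarith
    have h1 := h p χ hχ k n hk hn L x P (by
      rw [show (1 : ℝ) / 4 + 5 * (ε / 5) = 1 / 4 + ε by ring]
      exact hP) hL' hkn hx hcond P P hPne hPne hPP hPP 1 1
    simp only [Pi.one_apply, one_mul, norm_one, one_pow, Finset.sum_const, nsmul_eq_mul,
      mul_one] at h1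
    refine h1.trans (le_of_eq ?_)
    rw [Real.sqrt_mul_self (Nat.cast_nonneg _), Real.mul_self_sqrt (Nat.cast_nonneg _), sq]

end Pool.Agent.Results.MP_cb27ba_nt.PolynomialGrowth
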