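import Pool.Agent.V11298.PI.Fam

/-!
# MP_cb27ba_nt: power saving for the difference sums over almost all polynomial images of every set

For every `δ > 0` and `K` there is `n₀` such that for all `n ≥ n₀` and all large primes `p` the following holds. Let
`F` be any family of at most `p^K` sets `A` of residues with `|A| > p^δ`. Then all but at most `p^{n-K}` of the `p^n`
polynomials `f` of degree less than `n` have the property that the image sets `f(A)`, for ALL members `A` of the
family and ALL nonprincipal characters `χ` simultaneously, satisfy `|∑_{x,y ∈ f(A)} χ(x-y)| < |f(A)|^{2-1/8}`.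

Proof. The `2r`-th moment of `∑_{a,b ∈ A} χ(f(a) - f(b))` over all polynomials of degree less than `n ≥ 4r` is at most
`(4r)^{4r} p^n |A|^{2r}`: in the expansion the terms in which some point occurs only once vanish. The `m`-th moment of
the number of collisions `f(a) = f(b)`, `a ≠ b`, is at most `(2m)^{2m} p^n max(1, |A|²/p)^m`. So for
`|A| < p^{3/4}` almost all polynomials have few collisions and small sums, for all `χ`; for larger sets the bound of
Erdős and Shapiro holds for all polynomials.
-/

set_option autoImplicit false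

namespace Pool.Agent.Results.MP_cb27ba_nt.PolynomialImages

/-- For every `δ > 0` and `K` there is `n₀` such that for all `n ≥ n₀`, all large primes `p` and every family `F` of at
most `p^K` sets of more than `p^δ` residues mod `p` there are at most `p^{n-K}` polynomials `f = ∑_{i<n} f_i x^i` for
which some `A` in `F` and some nonprincipal character `χ` satisfy
`|∑_{x,y ∈ f(A)} χ(x-y)| ≥ |f(A)|^{15/8}`. -/
theorem result (δ : ℝ) (hδ : 0 < δ) (K : ℕ) : ∃ n₀ : ℕ, ∀ n : ℕ, n₀ ≤ n → ∃ p₀ : ℕ,
    ∀ (p : ℕ) [Fact p.Prime], p₀ ≤ p → ∀ F : Finset (Finset (ZMod p)), (F.card : ℝ) ≤ (p : ℝ) ^ K →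
      (∀ A ∈ F, (p : ℝ) ^ δ < A.card) →
      ({f : Fin n → ZMod p | ∃ A ∈ F, ∃ χ : DirichletCharacter ℂ p, χ ≠ 1 ∧
        ((A.image fun a => ∑ i, f i * a ^ (i : ℕ)).card : ℝ) ^ ((15 : ℝ) / 8) ≤
          ‖∑ x ∈ A.image (fun a => ∑ i, f i * a ^ (i : ℕ)),
            ∑ y ∈ A.image (fun a => ∑ i, f i * a ^ (i : ℕ)), χ (x - y)‖}.ncard : ℝ) ≤
        (p : ℝ) ^ ((n : ℝ) - K) :=
  Pool.Agent.V11298.PI.family δ hδ K

end Pool.Agent.Results.MP_cb27ba_nt.PolynomialImages
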