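import Mathlib
import Pool.Agent.H735CB.LSFinal
import Pool.Agent.Y854.GM.WinV

/-!
# Character sums over difference sets: all primes in windows around `α v_n`

Let `v_n ≥ 1` be a sequence with exponent of convergence at most `τ` (`∑ v_n ^ (-t) < ∞` for all
`t > τ`; for example `v_n = n ^ k` with `τ = 1 / k`, or `v_n = 2 ^ n` with `τ = 0`). For each `n` let
`A_n` be a set of integers of `[1, N_n]`, `v_n ^ δ ≤ N_n ≤ v_n`, with additive energy at most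
`N_n ^ (ρ - 1) |A_n| ^ 4` (for example any set with at least `N_n ^ (1 - ρ)` elements). Then, for all
real `α > 0` outside a set of Hausdorff dimension at most `(3 ρ + ε + τ) / (1 - θ)`, and all large `n`,
the power saving `|∑_{a, b ∈ A_n} χ(a - b)| < |A_n| ^ (2 - κ)` holds for ALL primes `p` with
`|p - α v_n| ≤ v_n ^ θ` and ALL nonprincipal characters `χ` modulo `p`. Here `δ, ε > 0` are
arbitrary and `κ > 0` depends only on `δ` and `ε`.
-/

set_option autoImplicit false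

open Filter MeasureTheory

namespace Pool.Agent.Results.MP_cb27ba_nt.WindowsOfPrimes

/-- `|∑_{a, b ∈ A} χ(a - b)| < |A| ^ (2 - κ)` for all nonprincipal characters `χ` modulo `p`. -/
def PowerSaving (κ : ℝ) (A : Finset ℕ) (p : ℕ) : Prop :=
  ∀ χ : DirichletCharacter ℂ p, χ ≠ 1 →
    ‖∑ a ∈ A, ∑ b ∈ A, χ ((a : ZMod p) - (b : ZMod p))‖ < (A.card : ℝ) ^ (2 - κ)

/-- `A` is a nonempty set of integers of `[1, N]` with additive energy at most
`N ^ (ρ - 1) |A| ^ 4`. -/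
def LowEnergy (ρ : ℝ) (N : ℕ) (A : Finset ℕ) : Prop :=
  A ⊆ Finset.Icc 1 N ∧ A.Nonempty ∧
    (N : ℝ) * (Finset.addEnergy A A : ℝ) ≤ (N : ℝ) ^ ρ * (A.card : ℝ) ^ 4

/-- The number of the primes up to `Q` without power saving. -/
theorem count (δ ε : ℝ) (hδ : 0 < δ) (hε : 0 < ε) :
    ∃ κ : ℝ, 0 < κ ∧ ∃ Q0 : ℕ, ∀ Q : ℕ, Q0 ≤ Q → ∀ N : ℕ, (Q : ℝ) ^ δ ≤ N → N ≤ Q →
      ∀ (A : Finset ℕ) (ρ : ℝ), 0 ≤ ρ → LowEnergy ρ N A →
        ({p : ℕ | p.Prime ∧ ¬ PowerSaving κ A p ∧ p ≤ Q}.ncard : ℝ) ≤ (Q : ℝ) ^ (3 * ρ + ε) := by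
  classical
  obtain ⟨κ, hκ, Q0, h⟩ := Pool.Agent.H735CB.LSv.almost_all_primes δ ε hδ hε
  refine ⟨κ, hκ, max Q0 1, fun Q hQ N hN hNQ A ρ hρ ⟨hA, hne, hE⟩ => ?_⟩
  have hQ1 : 1 ≤ Q := (le_max_right _ _).trans hQ
  have hQr : (1 : ℝ) ≤ Q := by exact_mod_cast hQ1
  have h1 := h Q ((le_max_left _ _).trans hQ) N hN hNQ A hA hne ρ hρ hE
  have h2 : ({p : ℕ | p.Prime ∧ ¬ PowerSaving κ A p ∧ p ≤ Q}.ncard : ℝ) ≤
      ∑ p ∈ (Finset.Icc 1 Q).filter Nat.Prime,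
        ({χ : DirichletCharacter ℂ p | χ ≠ 1 ∧ (A.card : ℝ) ^ (2 - κ)
          ≤ ‖∑ a ∈ A, ∑ b ∈ A, χ ((a : ZMod p) - (b : ZMod p))‖}.ncard : ℝ) := by
    set B : Finset ℕ := (Finset.Icc 1 Q).filter Nat.Prime with hB
    set B' : Finset ℕ := B.filter (fun p => ¬ PowerSaving κ A p) with hB'
    have h3 : {p : ℕ | p.Prime ∧ ¬ PowerSaving κ A p ∧ p ≤ Q} = (B' : Set ℕ) := by
      ext p
      simp only [Set.mem_setOf_eq, hB', hB, Finset.coe_filter, Finset.mem_filter, Finset.mem_Icc]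
      constructor
      · rintro ⟨a, b, c⟩
        exact ⟨⟨⟨a.one_lt.le, c⟩, a⟩, b⟩
      · rintro ⟨⟨⟨-, c⟩, a⟩, b⟩
        exact ⟨a, b, c⟩
    rw [h3, Set.ncard_coe_finset]
    have h4 : (B'.card : ℝ) ≤ ∑ p ∈ B', ({χ : DirichletCharacter ℂ p | χ ≠ 1 ∧
        (A.card : ℝ) ^ (2 - κ) ≤ ‖∑ a ∈ A, ∑ b ∈ A, χ ((a : ZMod p) - (b : ZMod p))‖}.ncard : ℝ) := by
      rw [Finset.card_eq_sum_ones, Nat.cast_sum]
      apply Finset.sum_le_sum
      intro p hp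
      rw [hB', Finset.mem_filter, hB, Finset.mem_filter] at hp
      have hp0 : NeZero p := ⟨hp.1.2.ne_zero⟩
      have h5 := hp.2
      unfold PowerSaving at h5
      push Not at h5
      obtain ⟨χ, hχ, hχ2⟩ := h5
      have h6 : ({χ : DirichletCharacter ℂ p | χ ≠ 1 ∧ (A.card : ℝ) ^ (2 - κ)
          ≤ ‖∑ a ∈ A, ∑ b ∈ A, χ ((a : ZMod p) - (b : ZMod p))‖}).Nonempty := ⟨χ, hχ, hχ2⟩
      have h7 : 0 < ({χ : DirichletCharacter ℂ p | χ ≠ 1 ∧ (A.card : ℝ) ^ (2 - κ)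
          ≤ ‖∑ a ∈ A, ∑ b ∈ A, χ ((a : ZMod p) - (b : ZMod p))‖}).ncard :=
        (Set.ncard_pos (Set.toFinite _)).2 h6
      exact_mod_cast h7
    refine h4.trans ?_
    apply Finset.sum_le_sum_of_subset_of_nonneg (Finset.filter_subset _ _)
    intro p _ _
    positivity
  refine h2.trans (h1.trans ?_)
  have h8 : ((Q : ℝ) ^ 2 * N) ^ ρ ≤ (Q : ℝ) ^ (3 * ρ) := by
    rw [Real.rpow_mul (by positivity)]
    apply Real.rpow_le_rpow (by positivity) _ hρ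
    have h9 : (N : ℝ) ≤ Q := by exact_mod_cast hNQ
    calc (Q : ℝ) ^ 2 * N ≤ (Q : ℝ) ^ 2 * Q := by gcongr
      _ = (Q : ℝ) ^ (3 : ℝ) := by norm_cast
  calc ((Q : ℝ) ^ 2 * N) ^ ρ * (Q : ℝ) ^ ε ≤ (Q : ℝ) ^ (3 * ρ) * (Q : ℝ) ^ ε := by gcongr
    _ = (Q : ℝ) ^ (3 * ρ + ε) := by rw [← Real.rpow_add (by positivity)]

/-- **All primes in windows.** For all `δ, ε > 0` there is `κ > 0` such that, for all sequences `v ≥ 1`
of exponent of convergence at most `τ`, `ρ ≥ 0`, `θ < 1` and sets `A n ⊆ [1, N n]` of low energy,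
`v n ^ δ ≤ N n ≤ v n`, there is a set `E` of dimension at most `(3 ρ + ε + τ) / (1 - θ)` such that for
all `α > 0` outside `E` and all large `n` all primes `p` with `|p - α v_n| ≤ v_n ^ θ` have the power
saving `κ` for all nonprincipal characters. -/
theorem result :
    ∀ δ ε : ℝ, 0 < δ → 0 < ε → ∃ κ : ℝ, 0 < κ ∧
      ∀ (v : ℕ → ℝ) (τ θ ρ : ℝ), (∀ n, 1 ≤ v n) → 0 ≤ τ →
        (∀ t : ℝ, τ < t → Summable fun n : ℕ => (v n) ^ (-t)) → θ < 1 → 0 ≤ ρ →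
        ∀ (N : ℕ → ℕ) (A : ℕ → Finset ℕ), (∀ n, (v n) ^ δ ≤ N n ∧ (N n : ℝ) ≤ v n) →
          (∀ n, LowEnergy ρ (N n) (A n)) →
          ∃ E : Set ℝ, dimH E ≤ ENNReal.ofReal ((3 * ρ + ε + τ) / (1 - θ)) ∧
            ∀ α : ℝ, 0 < α → α ∉ E → ∃ n₀ : ℕ, ∀ n ≥ n₀, ∀ p : ℕ, p.Prime →
              |(p : ℝ) - α * v n| ≤ (v n) ^ θ → PowerSaving κ (A n) p := by
  intro δ ε hδ hε
  obtain ⟨κ, hκ, Q0, hcount⟩ := count (δ / 2) ε (by positivity) hε
  refine ⟨κ, hκ, fun v τ θ ρ hpos hτ hv hθ hρ N A hN hA => ?_⟩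
  have hvp : ∀ n, 0 < v n := fun n => lt_of_lt_of_le one_pos (hpos n)
  have htv : Tendsto v atTop atTop := Pool.Agent.Y854.GM.tendsto_of_expLe hvp hτ hv
  obtain ⟨E, hE1, hE2⟩ := Pool.Agent.Y854.GM.windowsV
    (fun n => {p : ℕ | p.Prime ∧ ¬ PowerSaving κ (A n) p}) (fun _ (p : ℕ) => (p : ℝ))
    (v := v) (s := 3 * ρ + ε) (τ := τ) (θ := θ) 1 hpos hτ hv (by positivity) hθ (by
      intro a η hη
      have h4 : Tendsto (fun n => (v n) ^ (δ / 2)) atTop atTop :=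
        (tendsto_rpow_atTop (by positivity)).comp htv
      obtain ⟨n₁, hn₁⟩ := (((h4.eventually (eventually_ge_atTop (((a : ℝ) + 1) ^ (δ / 2)))).and
        (htv.eventually (eventually_ge_atTop ((Q0 : ℝ) + 1))))).exists_forall_of_atTop
      refine ⟨((a : ℝ) + 1) ^ (3 * ρ + ε), n₁, fun n hn => ?_⟩
      obtain ⟨ha, hb⟩ := hn₁ n hn
      have h1 := hpos n
      have ha0 : (0 : ℝ) ≤ a := Nat.cast_nonneg a
      set Q : ℕ := ⌊((a : ℝ) + 1) * v n⌋₊ with hQ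
      have hX0 : 0 ≤ ((a : ℝ) + 1) * v n := by positivity
      have hQle : (Q : ℝ) ≤ ((a : ℝ) + 1) * v n := Nat.floor_le hX0
      have hNv := hN n
      have hNQ : N n ≤ Q := by
        rw [hQ]
        apply Nat.le_floor
        nlinarith
      have hQ0 : Q0 ≤ Q := by
        rw [hQ]
        apply Nat.le_floor
        nlinarith
      have hQN : (Q : ℝ) ^ (δ / 2) ≤ N n := by
        calc (Q : ℝ) ^ (δ / 2) ≤ (((a : ℝ) + 1) * v n) ^ (δ / 2) :=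
              Real.rpow_le_rpow (by positivity) hQle (by positivity)
          _ = ((a : ℝ) + 1) ^ (δ / 2) * (v n) ^ (δ / 2) :=
              Real.mul_rpow (by positivity) (hvp n).le
          _ ≤ (v n) ^ (δ / 2) * (v n) ^ (δ / 2) := by
              apply mul_le_mul_of_nonneg_right ha
              have := hvp n
              positivity
          _ = (v n) ^ δ := by
              rw [← Real.rpow_add (hvp n)]
              congr 1
              ring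
          _ ≤ N n := hNv.1
      have h2 := hcount Q hQ0 (N n) hQN hNQ (A n) ρ hρ (hA n)
      have h3 : {t : ℕ | t ∈ {p : ℕ | p.Prime ∧ ¬ PowerSaving κ (A n) p} ∧
          ((t : ℕ) : ℝ) ≤ ((a : ℝ) + 1) * v n} =
          {p : ℕ | p.Prime ∧ ¬ PowerSaving κ (A n) p ∧ p ≤ Q} := by
        ext p
        constructor
        · rintro ⟨⟨b, c⟩, d⟩
          exact ⟨b, c, Nat.le_floor d⟩
        · rintro ⟨b, c, d⟩
          exact ⟨⟨b, c⟩, (by exact_mod_cast d : (p : ℝ) ≤ Q).trans hQle⟩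
      rw [h3]
      refine ⟨(Set.finite_Iic Q).subset fun p hp => hp.2.2, h2.trans ?_⟩
      calc (Q : ℝ) ^ (3 * ρ + ε) ≤ (((a : ℝ) + 1) * v n) ^ (3 * ρ + ε) :=
            Real.rpow_le_rpow (by positivity) hQle (by positivity)
        _ = ((a : ℝ) + 1) ^ (3 * ρ + ε) * (v n) ^ (3 * ρ + ε) :=
            Real.mul_rpow (by positivity) (hvp n).le
        _ ≤ ((a : ℝ) + 1) ^ (3 * ρ + ε) * (v n) ^ (3 * ρ + ε + η) := by
            apply mul_le_mul_of_nonneg_left _ (by positivity)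
            exact Real.rpow_le_rpow_of_exponent_le h1 (by linarith))
  refine ⟨E, hE1, fun α hα hαE => ?_⟩
  obtain ⟨n0, hn0⟩ := hE2 α hα hαE
  refine ⟨n0, fun n hn p hp hw => ?_⟩
  by_contra hbad
  have h1 := hn0 n hn p ⟨hp, hbad⟩
  rw [one_mul] at h1
  exact absurd hw (not_le.2 h1)

end Pool.Agent.Results.MP_cb27ba_nt.WindowsOfPrimes
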