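import Mathlib
import Pool.Agent.Results.MP_cb27ba_nt.WindowsOfPrimes
import Pool.Agent.V11326.WD
import Pool.Agent.V11001.KM.Near

/-!
# Character sums over difference sets: all primes near the powers of almost every real number

For every `k` let `A_k` be a set of integers of `[1, N_k]`, `2 ^ (δ k) ≤ N_k ≤ 2 ^ k`, with additive energy at most
`N_k ^ (ρ - 1) |A_k| ^ 4` (for example any set with at least `N_k ^ (1 - ρ)` elements). Let `ν n / log n → ∞`, for example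
`ν n = n`. Then for all real `z > 1` outside a set of Hausdorff dimension at most `(3 ρ + ε) / (1 - θ)` and ALL large primes
`p` with `|p - b z ^ (ν n)| ≤ z ^ (θ ν n)` for some `n` the power saving `|∑_{a, b ∈ A} χ(a - b)| < |A| ^ (2 - κ)` holds for
`A = A_k`, `2 ^ k ≤ p < 2 ^ (k + 1)`, and ALL nonprincipal characters `χ` modulo `p`. Here `δ, ε > 0` are arbitrary and
`κ > 0` depends only on `δ` and `ε`.
-/

set_option autoImplicit false

open Filter MeasureTheory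

namespace Pool.Agent.Results.MP_cb27ba_nt.PrimesNearPowers

open Pool.Agent.V11001.KM
open Pool.Agent.Results.MP_cb27ba_nt.WindowsOfPrimes

/-- the primes without power saving for the set belonging to their scale -/
def Bad (κ : ℝ) (A : ℕ → Finset ℕ) : Set ℕ := {p : ℕ | p.Prime ∧ ¬ PowerSaving κ (A (Nat.log 2 p)) p}

/-- the primes without power saving in a dyadic interval -/
theorem dyadic_count {δ ε : ℝ} (hδ : 0 < δ) (hε : 0 < ε) {κ : ℝ} {Q0 : ℕ}
    (hcount : ∀ Q : ℕ, Q0 ≤ Q → ∀ N : ℕ, (Q : ℝ) ^ (δ / 2) ≤ N → N ≤ Q →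
      ∀ (A : Finset ℕ) (ρ : ℝ), 0 ≤ ρ → LowEnergy ρ N A →
        ({p : ℕ | p.Prime ∧ ¬ PowerSaving κ A p ∧ p ≤ Q}.ncard : ℝ) ≤ (Q : ℝ) ^ (3 * ρ + ε))
    {ρ : ℝ} (hρ : 0 ≤ ρ) (N : ℕ → ℕ) (A : ℕ → Finset ℕ)
    (hN : ∀ k : ℕ, (2 : ℝ) ^ (δ * k) ≤ N k ∧ N k ≤ 2 ^ k) (hA : ∀ k, LowEnergy ρ (N k) (A k))
    (k : ℕ) (hk : 1 ≤ k) (hkQ : Q0 ≤ 2 ^ (k + 1)) :
    ({p : ℕ | p ∈ Bad κ A ∧ Nat.log 2 p = k}.ncard : ℝ) ≤ ((2 : ℝ) ^ (k + 1)) ^ (3 * ρ + ε) := by
  have hk1 : (1 : ℝ) ≤ k := by exact_mod_cast hk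
  have h1 : (((2 ^ (k + 1) : ℕ) : ℝ)) ^ (δ / 2) ≤ N k := by
    refine le_trans ?_ (hN k).1
    push_cast
    rw [← Real.rpow_natCast (2 : ℝ) (k + 1), ← Real.rpow_mul (by norm_num)]
    apply Real.rpow_le_rpow_of_exponent_le (by norm_num)
    push_cast
    nlinarith
  have h2 := hcount (2 ^ (k + 1)) hkQ (N k) h1 ((hN k).2.trans (Nat.pow_le_pow_right (by norm_num) (by omega))) (A k) ρ hρ
    (hA k)
  push_cast at h2
  refine le_trans ?_ h2
  have h3 : {p : ℕ | p ∈ Bad κ A ∧ Nat.log 2 p = k} ⊆ {p : ℕ | p.Prime ∧ ¬ PowerSaving κ (A k) p ∧ p ≤ 2 ^ (k + 1)} := by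
    rintro p ⟨⟨hp, hb⟩, hlog⟩
    rw [hlog] at hb
    refine ⟨hp, hb, ?_⟩
    have := Nat.lt_pow_succ_log_self (b := 2) (by norm_num) p
    rw [hlog] at this
    exact this.le
  exact_mod_cast Set.ncard_le_ncard h3 ((Set.finite_Iic (2 ^ (k + 1))).subset fun p hp => hp.2.2)

/-- **Theorem.** For all `δ, ε > 0` there is `κ > 0` such that for all `ν` with `ν n / log n → ∞`, all countable sets `U` of
real numbers, `θ < 1`, `ρ ≥ 0` and all countable families of sequences of sets `A j k ⊆ [1, N j k]` of low energy,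
`2 ^ (δ k) ≤ N j k ≤ 2 ^ k`, there is a set `E` of dimension at most `(3 ρ + ε) / (1 - θ)` such that for all `z > 1` outside
`E`, all `b > 0` in `U` and all `j` ALL large primes `p` with `|p - b z ^ (ν n)| ≤ z ^ (θ ν n)` for some `n` have the power
saving `κ` for the set `A j k`, `2 ^ k ≤ p < 2 ^ (k + 1)`, and all nonprincipal characters modulo `p`. -/
theorem result :
    ∀ δ ε : ℝ, 0 < δ → 0 < ε → ∃ κ : ℝ, 0 < κ ∧
      ∀ ν : ℕ → ℝ, Fast ν → ∀ U : Set ℝ, U.Countable → ∀ θ ρ : ℝ, θ < 1 → 0 ≤ ρ →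
        ∀ (J : Type) [Countable J] (N : J → ℕ → ℕ) (A : J → ℕ → Finset ℕ),
          (∀ (j : J) (k : ℕ), (2 : ℝ) ^ (δ * k) ≤ N j k ∧ N j k ≤ 2 ^ k) → (∀ j k, LowEnergy ρ (N j k) (A j k)) →
          ∃ E : Set ℝ, dimH E ≤ ENNReal.ofReal ((3 * ρ + ε) / (1 - θ)) ∧
            ∀ z : ℝ, 1 < z → z ∉ E → ∀ b ∈ U, 0 < b → ∀ j : J, ∃ p₀ : ℝ, ∀ p : ℕ, p.Prime → p₀ ≤ p →
              Near ν θ b z p → PowerSaving κ (A j (Nat.log 2 p)) p := by
  intro δ ε hδ hε
  obtain ⟨κ, hκ, Q0, hcount⟩ := count (δ / 2) ε (by positivity) hε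
  refine ⟨κ, hκ, fun ν hν U hU θ ρ hθ hρ J _ N A hN hA => ?_⟩
  have hs : 0 ≤ 3 * ρ + ε := by positivity
  obtain ⟨E, hE1, hE2⟩ := family_threshold (fun p : ℕ => (p : ℝ)) hν (s := 3 * ρ + ε) hs hθ U hU
    (J := J) (fun j => Bad κ (A j)) (fun j η hη => by
      obtain ⟨M, hM0, hM⟩ := Pool.Agent.V11326.WD.dyadic (max Q0 2) hη
      refine ⟨M * (2 * (4 : ℝ) ^ (3 * ρ + ε)), fun X hX => ⟨?_, ?_⟩⟩
      · exact (Set.finite_Icc 0 ⌊X⌋₊).subset fun t ht => ⟨Nat.zero_le _, Nat.le_floor ht.2⟩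
      · have h4 : (1 : ℝ) ≤ (4 : ℝ) ^ (3 * ρ + ε) := Real.one_le_rpow (by norm_num) hs
        refine hM (3 * ρ + ε) hs (Bad κ (A j)) (2 * (4 : ℝ) ^ (3 * ρ + ε)) (by linarith) ?_ X hX
        intro D hD
        have hDQ : Q0 ≤ D := (le_max_left _ _).trans hD
        have hD2 : 2 ≤ D := (le_max_right _ _).trans hD
        set k : ℕ := Nat.log 2 D with hk
        have hk1 : 1 ≤ k := by
          rw [hk]
          exact Nat.log_pos (by norm_num) hD2
        have hDk : 2 ^ k ≤ D := Nat.pow_log_le_self 2 (by omega)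
        have hDk2 : D < 2 ^ (k + 1) := Nat.lt_pow_succ_log_self (by norm_num) D
        have hsub : {d : ℕ | d ∈ Bad κ (A j) ∧ D < d ∧ d < 2 * D} ⊆
            {p : ℕ | p ∈ Bad κ (A j) ∧ Nat.log 2 p = k} ∪ {p : ℕ | p ∈ Bad κ (A j) ∧ Nat.log 2 p = k + 1} := by
          rintro d ⟨hd, hd1, hd2⟩
          have h1 : k ≤ Nat.log 2 d := Nat.log_mono_right hd1.le
          have h2 : Nat.log 2 d < k + 2 := by
            apply Nat.log_lt_of_lt_pow (by omega)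
            calc d < 2 * D := hd2
              _ < 2 * 2 ^ (k + 1) := by omega
              _ = 2 ^ (k + 2) := by ring
          rcases Nat.lt_or_ge (Nat.log 2 d) (k + 1) with h3 | h3
          · exact Or.inl ⟨hd, by omega⟩
          · exact Or.inr ⟨hd, by omega⟩
        have hfin : ∀ l : ℕ, {p : ℕ | p ∈ Bad κ (A j) ∧ Nat.log 2 p = l}.Finite := fun l =>
          (Set.finite_Iic (2 ^ (l + 1))).subset fun p hp => by
            have := Nat.lt_pow_succ_log_self (b := 2) (by norm_num) p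
            rw [hp.2] at this
            exact this.le
        have h5 : ({d : ℕ | d ∈ Bad κ (A j) ∧ D < d ∧ d < 2 * D}.ncard : ℝ) ≤
            ({p : ℕ | p ∈ Bad κ (A j) ∧ Nat.log 2 p = k}.ncard : ℝ) +
              ({p : ℕ | p ∈ Bad κ (A j) ∧ Nat.log 2 p = k + 1}.ncard : ℝ) := by
          exact_mod_cast (Set.ncard_le_ncard hsub ((hfin _).union (hfin _))).trans (Set.ncard_union_le _ _)
        have h6 := dyadic_count hδ hε hcount hρ (N j) (A j) (hN j) (hA j) k hk1 (hDQ.trans hDk2.le)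
        have h7 := dyadic_count hδ hε hcount hρ (N j) (A j) (hN j) (hA j) (k + 1) (by omega)
          (hDQ.trans (hDk2.le.trans (Nat.pow_le_pow_right (by norm_num) (by omega))))
        have h8 : (2 : ℝ) ^ (k + 1 + 1) ≤ 4 * D := by
          have : (2 : ℝ) ^ k ≤ D := by exact_mod_cast hDk
          calc (2 : ℝ) ^ (k + 1 + 1) = 4 * 2 ^ k := by ring
            _ ≤ 4 * D := by linarith
        have h9 : ((2 : ℝ) ^ (k + 1 + 1)) ^ (3 * ρ + ε) ≤ (4 : ℝ) ^ (3 * ρ + ε) * (D : ℝ) ^ (3 * ρ + ε) := by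
          rw [← Real.mul_rpow (by norm_num) (by positivity)]
          exact Real.rpow_le_rpow (by positivity) h8 hs
        have h10 : ((2 : ℝ) ^ (k + 1)) ^ (3 * ρ + ε) ≤ ((2 : ℝ) ^ (k + 1 + 1)) ^ (3 * ρ + ε) :=
          Real.rpow_le_rpow (by positivity) (pow_le_pow_right₀ (by norm_num) (by omega)) hs
        linarith)
  refine ⟨E, hE1, fun z hz hzE b hb hb0 j => ?_⟩
  obtain ⟨p₀, h3⟩ := hE2 z hz hzE b hb hb0 j
  refine ⟨p₀, fun p hp hpp hn => ?_⟩
  by_contra hcon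
  exact absurd (h3 p ⟨hp, hcon⟩ hn) (not_lt.2 hpp)

end Pool.Agent.Results.MP_cb27ba_nt.PrimesNearPowers
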